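import Pool.Agent.Helper39.CR.GoalsS

/-!
# CAR4-ESS: the suspension is essential in its unitization
-/

set_option autoImplicit false

namespace Pool.Agent.Helper12.CR

open Filter Topology
open scoped ZeroAtInfty
open Pool.Agent.Helper39.CR

section

variable {E : Type} [NonUnitalCStarAlgebra E]

/-- The bump at `T` with value `y`. -/
noncomputable def bump (T : ℝ) (y : E) : C₀(ℝ, E) where
  toFun t := ((max 0 (1 - |t - T|) : ℝ) : ℂ) • y
  continuous_toFun := by fun_prop
  zero_at_infty' := by
    refine HasCompactSupport.is_zero_at_infty ?_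
    refine HasCompactSupport.intro (isCompact_Icc : IsCompact (Set.Icc (T - 1) (T + 1))) ?_
    intro t ht
    have h : 1 - |t - T| ≤ 0 := by
      by_contra hcon
      push Not at hcon
      apply ht
      have h1 : |t - T| < 1 := by linarith
      rw [abs_lt] at h1
      constructor <;> linarith [h1.1, h1.2]
    rw [max_eq_left h, Complex.ofReal_zero, zero_smul]

theorem bump_self (T : ℝ) (y : E) : bump T y T = y := by
  show ((max 0 (1 - |T - T|) : ℝ) : ℂ) • y = y
  simp

end

theorem ess : S_ESS := by
  intro E _ hE b hb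
  obtain ⟨y, hy⟩ := hE
  by_contra hcon
  push Not at hcon
  have h1 : ∀ x : C₀(ℝ, E), b.fst • x + b.snd * x = 0 := by
    intro x
    have h := congrArg (fun z : Unitization ℂ C₀(ℝ, E) => z.snd) (hcon x)
    simpa using h
  have h2 : b.fst = 0 := by
    have h3 : ∀ T : ℝ, ‖b.fst‖ ≤ ‖b.snd T‖ := by
      intro T
      have h4 := congrArg (fun g : C₀(ℝ, E) => g T) (h1 (bump T y))
      have h5 : b.fst • y + b.snd T * y = 0 := by
        simpa [bump_self] using h4
      have h6 : b.fst • y = - (b.snd T * y) := eq_neg_of_add_eq_zero_left h5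
      have h7 : ‖b.fst‖ * ‖y‖ ≤ ‖b.snd T‖ * ‖y‖ := by
        rw [← norm_smul, h6, norm_neg]
        exact norm_mul_le _ _
      exact le_of_mul_le_mul_right h7 (norm_pos_iff.2 hy)
    have h4 : Tendsto (fun T : ℝ => ‖b.snd T‖) (cocompact ℝ) (𝓝 0) := by
      have := b.snd.zero_at_infty'
      have h5 := this.norm
      simpa using h5
    have h5 : ‖b.fst‖ ≤ 0 := ge_of_tendsto' h4 h3
    exact norm_le_zero_iff.1 h5
  have h3 : b.snd = 0 := by
    have h4 := h1 (star b.snd)
    rw [h2, zero_smul, zero_add] at h4
    exact (CStarRing.mul_star_self_eq_zero_iff b.snd).1 h4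
  apply hb
  exact Unitization.ext h2 h3

end Pool.Agent.Helper12.CR
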