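import Mathlib
import Pool.Agent.Helper85.CR.Goals

/-!
# Project CR, packet TOP: a graph contained in a plane map is planar
(the argument of `Pool/Agent/Helper76/UB/Rot.lean`)
-/

set_option autoImplicit false

namespace Pool.Agent.Helper12.CR

open Equiv Helper28.VF Pool.Agent.Helper85.CR
open scoped Classical

theorem card_eq_of_ker {D X Y : Type} (p : D → X) (q : D → Y) (hp : Function.Surjective p)
    (hq : Function.Surjective q) (h : ∀ d e, p d = p e ↔ q d = q e) : Nat.card X = Nat.card Y := by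
  refine Nat.card_congr (Equiv.ofBijective (fun x => q (Function.surjInv hp x)) ⟨?_, ?_⟩)
  · intro x y hxy
    have h1 := (h _ _).2 hxy
    rw [Function.surjInv_eq hp x, Function.surjInv_eq hp y] at h1
    exact h1
  · intro y
    obtain ⟨d, hd⟩ := hq y
    refine ⟨p d, ?_⟩
    rw [← hd]
    exact (h _ _).1 (Function.surjInv_eq hp (p d))

theorem sameCycle_congr {D X : Type} (ψ : D ≃ X) (f : Perm D) (x y : X) :
    (ψ.permCongr f).SameCycle x y ↔ f.SameCycle (ψ.symm x) (ψ.symm y) := by
  have key : ∀ n : ℤ, ((ψ.permCongr f) ^ n) x = ψ ((f ^ n) (ψ.symm x)) := by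
    intro n
    have h1 : (ψ.permCongr f) ^ n = ψ.permCongr (f ^ n) := by
      have := map_zpow ψ.permCongrHom f n
      exact this.symm
    rw [h1]
    rfl
  unfold Perm.SameCycle
  constructor
  · rintro ⟨n, hn⟩
    refine ⟨n, ?_⟩
    rw [key] at hn
    rw [← hn, Equiv.symm_apply_apply]
  · rintro ⟨n, hn⟩
    refine ⟨n, ?_⟩
    rw [key, hn, Equiv.apply_symm_apply]

/-- From simple plane maps to rotation systems. -/
theorem rot (D V E F : Type) [Fintype D] [Fintype V] [Fintype E] [Fintype F] (M : PM D V E F)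
    (hl : ∀ d, M.vt (M.α d) ≠ M.vt d)
    (hs : ∀ d e, M.vt d = M.vt e → M.vt (M.α d) = M.vt (M.α e) → d = e) :
    ∃ H : SimpleGraph V, (∀ u v, H.Adj u v ↔ ∃ d, M.vt d = u ∧ M.vt (M.α d) = v) ∧ H.Connected ∧
      ∃ σ : Equiv.Perm H.Dart, IsRotation H σ ∧
        Nat.card V + numFaces H σ = Nat.card H.edgeSet + 2 := by
  have tga : ∀ d, M.vt (M.α (M.α d)) = M.vt d := by
    intro d
    rw [M.α_inv]
  let H : SimpleGraph V :=
    { Adj := fun u v => ∃ d, M.vt d = u ∧ M.vt (M.α d) = v
      symm := ⟨fun u v huv => by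
        obtain ⟨d, rfl, rfl⟩ := huv
        exact ⟨M.α d, rfl, tga d⟩⟩
      loopless := ⟨fun u hu => by
        obtain ⟨d, h1, h2⟩ := hu
        exact hl d (h2.trans h1.symm)⟩ }
  have hH : ∀ u v, H.Adj u v ↔ ∃ d, M.vt d = u ∧ M.vt (M.α d) = v := fun u v => Iff.rfl
  let g : D → H.Dart := fun d => ⟨(M.vt d, M.vt (M.α d)), ⟨d, rfl, rfl⟩⟩
  have gbij : Function.Bijective g := by
    constructor
    · intro d e hde
      have h1 : (M.vt d, M.vt (M.α d)) = (M.vt e, M.vt (M.α e)) := congrArg (fun x => x.toProd) hde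
      exact hs d e (congrArg Prod.fst h1) (congrArg Prod.snd h1)
    · rintro ⟨⟨u, v⟩, huv⟩
      have huv' : ∃ d, M.vt d = u ∧ M.vt (M.α d) = v := huv
      obtain ⟨d, h1, h2⟩ := huv'
      refine ⟨d, SimpleGraph.Dart.ext _ _ ?_⟩
      change (M.vt d, M.vt (M.α d)) = (u, v)
      rw [h1, h2]
  let ψ : D ≃ H.Dart := Equiv.ofBijective g gbij
  have hψ : ∀ d, ψ d = g d := fun d => rfl
  have hrev : rev H = ψ.permCongr M.α := by
    apply Equiv.ext
    intro x
    obtain ⟨d, rfl⟩ := ψ.surjective x
    have h1 : (ψ.permCongr M.α) (ψ d) = ψ (M.α d) := by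
      simp [Equiv.permCongr_apply]
    rw [h1, hψ, hψ]
    change (g d).symm = g (M.α d)
    apply SimpleGraph.Dart.ext
    change (M.vt (M.α d), M.vt d) = (M.vt (M.α d), M.vt (M.α (M.α d)))
    rw [tga]
  have hmul : ψ.permCongr M.σ * rev H = ψ.permCongr (M.σ * M.α) := by
    rw [hrev]
    exact (map_mul ψ.permCongrHom M.σ M.α).symm
  have hD : Nonempty D := by
    by_contra hcon
    rw [not_nonempty_iff] at hcon
    have hV : IsEmpty V := ⟨fun v => by
      obtain ⟨d, -⟩ := M.vt_surj v
      exact hcon.false d⟩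
    have hE : IsEmpty E := ⟨fun v => by
      obtain ⟨d, -⟩ := M.ed_surj v
      exact hcon.false d⟩
    have hF : IsEmpty F := ⟨fun v => by
      obtain ⟨d, -⟩ := M.fc_surj v
      exact hcon.false d⟩
    have := M.euler
    rw [Fintype.card_eq_zero, Fintype.card_eq_zero, Fintype.card_eq_zero] at this
    omega
  refine ⟨H, hH, ?_, ψ.permCongr M.σ, ?_, ?_⟩
  · -- connected
    obtain ⟨d₀⟩ := hD
    have hP := M.conn (fun d => H.Reachable (M.vt d₀) (M.vt d)) ⟨d₀, SimpleGraph.Reachable.refl _⟩
      (by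
        intro d hd
        have : M.vt (M.σ d) = M.vt d :=
          (M.vt_iff (M.σ d) d).2 (Perm.SameCycle.symm (Perm.sameCycle_apply_right.2
            (Perm.SameCycle.refl _ _)))
        rw [this]
        exact hd)
      (by
        intro d hd
        refine hd.trans (SimpleGraph.Adj.reachable ?_)
        exact ⟨d, rfl, rfl⟩)
    have hne : Nonempty V := ⟨M.vt d₀⟩
    refine SimpleGraph.Connected.mk ?_
    intro u v
    obtain ⟨d, rfl⟩ := M.vt_surj u
    obtain ⟨e, rfl⟩ := M.vt_surj v
    exact (hP d).symm.trans (hP e)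
  · intro x y
    rw [sameCycle_congr, ← M.vt_iff]
    obtain ⟨d, rfl⟩ := ψ.surjective x
    obtain ⟨e, rfl⟩ := ψ.surjective y
    rw [Equiv.symm_apply_apply, Equiv.symm_apply_apply]
    exact Iff.rfl
  · have hF : numFaces H (ψ.permCongr M.σ) = Nat.card F := by
      unfold numFaces
      refine card_eq_of_ker (D := H.Dart) (fun x => Quotient.mk _ x) (fun x => M.fc (ψ.symm x))
        Quotient.mk_surjective ?_ ?_
      · intro q
        obtain ⟨d, rfl⟩ := M.fc_surj q
        exact ⟨ψ d, by simp⟩
      · intro x y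
        rw [M.fc_iff, ← sameCycle_congr, ← hmul]
        exact Quotient.eq (r := Perm.SameCycle.setoid (ψ.permCongr M.σ * rev H))
    have hE : Nat.card H.edgeSet = Nat.card E := by
      refine card_eq_of_ker (D := D) (fun d => (⟨(g d).edge, (g d).edge_mem⟩ : H.edgeSet))
        (fun d => M.ed d) ?_ M.ed_surj ?_
      · rintro ⟨e, hmem⟩
        induction e using Sym2.ind with
        | _ v w =>
          have hvw : ∃ d, M.vt d = v ∧ M.vt (M.α d) = w := hmem
          obtain ⟨d, rfl, rfl⟩ := hvw
          exact ⟨d, rfl⟩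
      · intro d e
        rw [Subtype.mk.injEq, SimpleGraph.dart_edge_eq_iff, M.ed_iff]
        have hsym : ∀ e, (g e).symm = g (M.α e) := by
          intro e
          apply SimpleGraph.Dart.ext
          change (M.vt (M.α e), M.vt e) = (M.vt (M.α e), M.vt (M.α (M.α e)))
          rw [tga]
        rw [hsym, gbij.1.eq_iff, gbij.1.eq_iff]
        constructor
        · rintro (hh | hh)
          · exact Or.inl hh.symm
          · right
            rw [hh, M.α_inv]
        · rintro (hh | hh)
          · exact Or.inl hh.symm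
          · right
            rw [hh, M.α_inv]
    rw [hF, hE, Nat.card_eq_fintype_card, Nat.card_eq_fintype_card, Nat.card_eq_fintype_card]
    exact M.euler

theorem gTOP : StmtTOP := by
  intro W _ A l G hD hG
  obtain ⟨D, V, E, F, _, _, _, _, M, nm, b, hs, hinj, hran, hA, -, -⟩ := hD
  have hsur : Function.Surjective nm := Set.range_eq_univ.mp hran
  let M' : PM D W E F :=
    { σ := M.σ
      α := M.α
      vt := fun d => nm (M.vt d)
      ed := M.ed
      fc := M.fc
      α_inv := M.α_inv
      α_ne := M.α_ne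
      vt_iff := fun d e => hinj.eq_iff.trans (M.vt_iff d e)
      ed_iff := M.ed_iff
      fc_iff := M.fc_iff
      vt_surj := hsur.comp M.vt_surj
      ed_surj := M.ed_surj
      fc_surj := M.fc_surj
      conn := M.conn
      euler := by
        have h1 : Fintype.card W = Fintype.card V :=
          (Fintype.card_of_bijective ⟨hinj, hsur⟩).symm
        rw [h1]
        exact M.euler }
  obtain ⟨H, hH, hconn, σ, hrot, hcard⟩ := rot D W E F M'
    (fun d h => hs.noloop d (hinj h)) (fun d e h1 h2 => hs.simple d e (hinj h1) (hinj h2))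
  right
  refine ⟨H, ?_, hconn, σ, hrot, hcard⟩
  intro u v huv
  exact (hH u v).2 ((hA u v).1 (hG u v huv))

end Pool.Agent.Helper12.CR
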